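import Mathlib
import Pool.Agent.MP_d8b1b3_co.H60.Key

/-!
The short interval lemma with a saving of `R`, and the construction with a longer window.
-/

set_option autoImplicit false

namespace Pool.Agent.MP_d8b1b3_co.H98p

open Finset Filter Pool.Agent.MP_d8b1b3_co.H42d Pool.Agent.MP_d8b1b3_co.H68
  Pool.Agent.MP_d8b1b3_co.H68.Od

open Classical in
/-- **Short intervals.** -/
theorem short_int_q (e : ℕ) (he : e = 1 ∨ e = 2) (b : ℕ) (hb : b ≤ 1) (q c : ℕ) (hq : 0 < q)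
    (hc : c.Coprime q) (ε : ℝ) (ε0 : 0 < ε) : ∀ᶠ P : ℕ in atTop, ∀ R Z : ℕ,
      2 ^ (20 * R) ≤ Nat.log 2 P → P ^ 10 ≤ Z → Z ≤ P ^ R →
      (#{z ∈ Ioc 0 Z | ¬∃ u p : ℕ, u % 8 = 1 ∧ P ≤ u ∧ u ≤ 256 * P ∧ p.Prime ∧ p ≡ c [MOD q] ∧
        u ^ e * (p + b) < z ∧ z ≤ u ^ e * (p + b) + P ^ (e + 2)} : ℝ) ≤ ε / R * Z := by
  have tl : Tendsto (Nat.log 2) atTop atTop := tendsto_atTop.2 fun n =>
    (eventually_ge_atTop (2 ^ n)).mono fun _ h => Nat.le_log_of_pow_le one_lt_two h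
  have tc := tendsto_natCast_atTop_atTop (R := ℝ)
  obtain ⟨x₀, hx₀⟩ := eventually_atTop.1 (H68.primes_ap.and
    ((Real.tendsto_log_atTop.comp tc).eventually_ge_atTop (q : ℝ)))
  filter_upwards [eventually_ge_atTop x₀, (tc.comp tl).eventually_ge_atTop (8 / ε),
    tl.eventually (ev_log2 (2 ^ 28)), tl.eventually_ge_atTop 1000,
    (tc.comp tl).eventually_ge_atTop (2 ^ 53 * (40 * q) ^ 2 / ε ^ 3)]
    with P p1 p2 p3 p4 p5 R Z hR hZ hZ'
  have P0 : P ≠ 0 := by rintro rfl; simp at p4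
  have l1 := Nat.pow_log_le_self 2 P0
  have l2 := Nat.lt_pow_succ_log_self one_lt_two P
  simp only [Function.comp] at p2 p5
  generalize Nat.log 2 P = L at *
  have l3 := Nat.lt_pow_succ_log_self one_lt_two L
  generalize Nat.log 2 L = g at *
  have P2 : 2 ≤ P := le_trans (Nat.le_self_pow (by omega) 2) l1
  have R1 : 1 ≤ R := by
    rcases R with _ | R
    · have := Nat.one_lt_pow (n := 10) (by norm_num) P2
      rw [pow_zero] at hZ'
      omega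
    · omega
  have R2 : R < 2 ^ R := Nat.lt_two_pow_self
  set y := (P / 5).sqrt.sqrt with hy
  have y1 : 5 * y ^ 4 ≤ P := by
    have a1 := Nat.sqrt_le' (P / 5).sqrt
    have a2 := Nat.sqrt_le' (P / 5)
    have := Nat.pow_le_pow_left a1 2
    rw [← pow_mul, ← hy, show 2 * 2 = 4 from rfl] at this
    omega
  have y2 : 2 ^ ((L - 3) / 4) ≤ y := by
    rw [hy, Nat.le_sqrt', Nat.le_sqrt', Nat.le_div_iff_mul_le (by norm_num), ← pow_mul, ← pow_mul]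
    refine le_trans ?_ l1
    calc _ ≤ 2 ^ (L - 3) * 2 ^ 3 :=
          Nat.mul_le_mul (Nat.pow_le_pow_right two_pos (by omega)) (by norm_num)
      _ = _ := by rw [← pow_add]; congr 1; omega
  have y3 : 64 ≤ y := le_trans (Nat.pow_le_pow_right two_pos (by omega) : 2 ^ 6 ≤ _) y2
  have y4 : P ≤ 64 * y ^ 4 := by
    have a1 := Nat.succ_le_of_lt (Nat.lt_succ_sqrt' (P / 5).sqrt)
    have a2 := Nat.lt_succ_sqrt' (P / 5)
    have a3 := Nat.pow_le_pow_left a1 2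
    have a4 : (2 * (y + 1)) ^ 4 ≤ (3 * y) ^ 4 := Nat.pow_le_pow_left (by omega) 4
    rw [← pow_mul, show 2 * 2 = 4 from rfl] at a3
    simp only [Nat.succ_eq_add_one, ← hy, mul_pow] at *
    omega
  have E1 : 128 * (g + 1) * 2 ^ (15 * R) ≤ L := by
    refine (Nat.pow_le_pow_iff_left (by norm_num : 4 ≠ 0)).1 ?_
    calc _ = 2 ^ 28 * (g + 1) ^ 4 * (2 ^ (20 * R)) ^ 3 := by
          rw [mul_pow, mul_pow, ← pow_mul, ← pow_mul 2 (20 * R)]
          congr 2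
          omega
      _ ≤ L * L ^ 3 := by gcongr
      _ = _ := by ring
  have E2 : 10 * R + 1 ≤ 2 ^ (5 * R) := by
    rw [mul_comm 5 R, pow_mul]
    have : 2 ^ 4 ≤ (2 ^ R) ^ 4 := Nat.pow_le_pow_left (by omega) 4
    nlinarith
  have E3 : 5 * R ≤ 2 ^ (15 * R) := by
    have : 15 * R < 2 ^ (15 * R) := Nat.lt_two_pow_self
    omega
  have E4 : 11 + 2 * (g + 1) * 2 ^ (15 * R) ≤ (L - 3) / 4 ∧ 2 * (5 * R) + 4 ≤ (L - 3) / 4 := by
    have a1 := Nat.mul_le_mul (Nat.succ_pos g) E3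
    rw [mul_assoc] at E1
    rw [mul_assoc]
    simp only [Nat.succ_eq_add_one] at a1
    omega
  have R0 : (0 : ℝ) < R := by exact_mod_cast R1
  have R5 : R ^ 5 ≤ L := (Nat.pow_le_pow_left R2.le 5).trans (le_trans (by
    rw [← pow_mul]; exact Nat.pow_le_pow_right two_pos (by omega)) hR)
  have E5 : 8 ≤ ε / R * P := by
    have a1 : L * R ≤ P := (Nat.mul_le_mul_left L ((Nat.le_self_pow (by norm_num) R).trans R5)).trans
      ((H88d.mul_self_le L (by omega)).trans l1)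
    have a2 : (L : ℝ) * R ≤ P := by exact_mod_cast a1
    rw [div_le_iff₀' ε0] at p2
    rw [div_mul_eq_mul_div, le_div_iff₀ R0]
    nlinarith [mul_le_mul_of_nonneg_left a2 ε0.le]
  have := core he hb (fun p => p.Prime ∧ p ≡ c [MOD q]) (P := P) (y := y) (S := 5 * R)
    (E := 2 ^ (15 * R)) (Z := Z) (θ := 1 / 2 ^ (2 * (g + 1))) (ε := ε / R) (D := 20 * q)
    (by positivity) (fun x hx => by
      have := hx₀ x (p1.trans hx)
      exact (this.1 q c hq this.2 hc).trans (le_of_eq (by congr 3))) ((Nat.pow_le_pow_right two_pos E4.2).trans y2)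
    (by positivity) (by rw [div_le_one (by positivity)]; exact one_le_pow₀ one_le_two)
    (by rw [show 15 * R = 5 * R + 2 * (5 * R) by ring, pow_add]; gcongr; omega) ?_ y1 y4 hZ
    (hZ'.trans (by rw [pow_mul]; gcongr; nlinarith)) (by positivity) E5 ?_
  · simpa only [and_assoc] using this
  · rw [one_div, inv_pow, ← pow_mul, inv_mul_eq_div, le_div_iff₀ (by positivity), ← pow_add]
    exact_mod_cast (Nat.pow_le_pow_right two_pos E4.1).trans y2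
  · have L0 : (1000 : ℝ) ≤ L := by exact_mod_cast p4
    have Z0 : (1 : ℝ) ≤ Z := by exact_mod_cast (Nat.one_le_pow _ _ (by omega)).trans hZ
    have a1 : Real.log Z ≤ R * (2 * L) := by
      have : (Z : ℝ) ≤ 2 ^ (R * (L + 1)) := by
        rw [mul_comm R, pow_mul]
        exact_mod_cast hZ'.trans (Nat.pow_le_pow_left l2.le R)
      refine (Real.log_le_log (by linarith) this).trans ?_
      rw [Real.log_pow]
      push_cast
      rw [mul_assoc]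
      refine mul_le_mul_of_nonneg_left ?_ (Nat.cast_nonneg R)
      nlinarith [Real.log_two_lt_d9]
    have a2 : (1 / 2 ^ (2 * (g + 1)) : ℝ) ≤ 1 / L ^ 2 := by
      rw [mul_comm, pow_mul]
      gcongr
      exact_mod_cast l3.le
    have a3 : (R : ℝ) ^ 5 ≤ L := by exact_mod_cast R5
    have a4 := Real.log_nonneg Z0
    rw [div_le_iff₀ (by positivity)] at p5
    calc _ ≤ 2 ^ 53 * (20 * q * (1 / L ^ 2) * (R * (2 * L)) : ℝ) ^ 2 := by gcongr
      _ = 2 ^ 53 * (40 * q) ^ 2 * R ^ 5 / (L ^ 2 * R ^ 3) := by field_simp; ring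
      _ ≤ L * ε ^ 3 * L / (L ^ 2 * R ^ 3) := by gcongr
      _ = _ := by field_simp

open Classical in
/-- Row A: the short interval lemma with a saving of `R`. -/
theorem good_q (ε : ℝ) (hε : 0 < ε) : ∀ᶠ P : ℕ in atTop, ∀ R Z : ℕ, 2 ^ (20 * R) ≤ Nat.log 2 P →
    P ^ 10 ≤ Z → Z ≤ P ^ R → (#{z ∈ Ioc 0 Z | ¬ H68.Od.Good P z} : ℝ) ≤ ε / R * Z := by
  have T := fun c (hc : Nat.Coprime c 16) =>
    short_int_q 2 (Or.inr rfl) 1 le_rfl 16 c (by norm_num) hc (ε / 4) (by positivity)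
  filter_upwards [T 1 (by norm_num), T 5 (by norm_num), T 9 (by norm_num), T 13 (by norm_num)]
    with P h1 h2 h3 h4 R Z a b c
  have e : #{z ∈ Ioc 0 Z | ¬ H68.Od.Good P z} ≤ #{z ∈ Ioc 0 Z | ¬ Near 1 P z} +
      #{z ∈ Ioc 0 Z | ¬ Near 5 P z} + #{z ∈ Ioc 0 Z | ¬ Near 9 P z} +
      #{z ∈ Ioc 0 Z | ¬ Near 13 P z} := by
    refine le_trans (card_le_card (t := {z ∈ Ioc 0 Z | ¬ Near 1 P z} ∪
      {z ∈ Ioc 0 Z | ¬ Near 5 P z} ∪ {z ∈ Ioc 0 Z | ¬ Near 9 P z} ∪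
      {z ∈ Ioc 0 Z | ¬ Near 13 P z}) fun z hz => ?_) ?_
    · obtain ⟨h0, hz⟩ := mem_filter.1 hz
      simp only [mem_filter, mem_union, h0, true_and]
      unfold H68.Od.Good at hz
      tauto
    · exact (card_union_le _ _).trans (Nat.add_le_add_right ((card_union_le _ _).trans
        (Nat.add_le_add_right (card_union_le _ _) _)) _)
  have e' := (Nat.cast_le (α := ℝ)).2 e
  have k : ∀ c, (#{z ∈ Ioc 0 Z | ¬∃ u p : ℕ, u % 8 = 1 ∧ P ≤ u ∧ u ≤ 256 * P ∧ p.Prime ∧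
      p ≡ c [MOD 16] ∧ u ^ 2 * (p + 1) < z ∧ z ≤ u ^ 2 * (p + 1) + P ^ (2 + 2)} : ℝ) ≤
        ε / 4 / R * Z → (#{z ∈ Ioc 0 Z | ¬ Near c P z} : ℝ) ≤ ε / R * Z / 4 := fun c h => by
    refine le_trans (Nat.cast_le.2 (card_le_card fun z hz => ?_)) (h.trans (le_of_eq (by ring)))
    exact mem_filter.2 (mem_filter.1 hz)
  push_cast at e'
  linarith [k 1 (h1 R Z a b c), k 5 (h2 R Z a b c), k 9 (h3 R Z a b c), k 13 (h4 R Z a b c)]

/-- the difference `w - u ^ 2 p` is a sum of three squares for one of the classes -/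
lemma squares {P z w : ℕ} (h : H68.Od.Good P z) (hw : w % 2 = 1) (h1 : z ≤ w) : ∃ u p s1 s2 s3 : ℕ,
    u % 2 = 1 ∧ P ≤ u ∧ u ≤ 256 * P ∧ p.Prime ∧ p % 4 = 1 ∧ u ^ 2 * (p + 1) < w ∧
    z ≤ u ^ 2 * (p + 1) + P ^ 4 ∧ w = u ^ 2 * p + (s1 ^ 2 + s2 ^ 2 + s3 ^ 2) := by
  have key : ∀ c, Near c P z → c < 16 → c % 4 = 1 → (w % 4 = 3 ∨ (w + 8) % 16 = c) →
      ∃ u p s1 s2 s3 : ℕ, u % 2 = 1 ∧
        P ≤ u ∧ u ≤ 256 * P ∧ p.Prime ∧ p % 4 = 1 ∧ u ^ 2 * (p + 1) < w ∧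
        z ≤ u ^ 2 * (p + 1) + P ^ 4 ∧ w = u ^ 2 * p + (s1 ^ 2 + s2 ^ 2 + s3 ^ 2) := by
    rintro c ⟨u, p, u0, u1, u2, k1, k2, k3, k4⟩ c1 c2 c3
    replace k2 : p % 16 = c % 16 := k2
    obtain ⟨a, ha⟩ : ∃ a, u = 8 * a + 1 := ⟨u / 8, by omega⟩
    have e : u ^ 2 * p = 16 * ((4 * a ^ 2 + a) * p) + p := by rw [ha]; ring
    have e' : u ^ 2 * (p + 1) = u ^ 2 * p + u ^ 2 := by ring
    suffices ∃ s1 s2 s3 : ℕ, s1 ^ 2 + s2 ^ 2 + s3 ^ 2 = w - u ^ 2 * p by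
      obtain ⟨s1, s2, s3, hs⟩ := this
      exact ⟨u, p, s1, s2, s3, by omega, u1, u2, k1, by omega, by omega, k4, by omega⟩
    rcases c3 with c3 | c3
    · exact three_squares (by omega)
    · obtain ⟨s1, s2, s3, hs⟩ := three_squares (n := (w - u ^ 2 * p) / 4) (by omega)
      refine ⟨2 * s1, 2 * s2, 2 * s3, ?_⟩
      rw [show (2 * s1) ^ 2 + (2 * s2) ^ 2 + (2 * s3) ^ 2 = 4 * (s1 ^ 2 + s2 ^ 2 + s3 ^ 2) by ring,
        hs]
      omega
  obtain ⟨h1, h2, h3, h4⟩ := h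
  have : (w % 4 = 3 ∨ (w + 8) % 16 = 1) ∨ (w + 8) % 16 = 5 ∨ (w + 8) % 16 = 9 ∨
      (w + 8) % 16 = 13 := by omega
  rcases this with c | c | c | c
  · exact key 1 h1 (by norm_num) rfl c
  · exact key 5 h2 (by norm_num) rfl (Or.inr c)
  · exact key 9 h3 (by norm_num) rfl (Or.inr c)
  · exact key 13 h4 (by norm_num) rfl (Or.inr c)

/-- Row B: the construction, with a longer window. -/
theorem had_of_good {t P X j q q' z w : ℕ} (ht : 100 ≤ t) (hG : ∀ l, 0 < l → l ≤ X → G t l)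
    (hK : 2 ^ (t + 2) ≤ P) (hX : 2 ^ j * (q * q' * w) ≤ X)
    (hq : q.Prime ∧ q ≡ 1 [MOD 2 ^ (t + 2)] ∧ P ^ 5000 ≤ q)
    (hq' : q'.Prime ∧ q' ≡ 1 [MOD 2 ^ (t + 2)] ∧ P ^ 5000 ≤ q') (hw : w % 2 = 1) (hz : H68.Od.Good P z)
    (h1 : z ≤ w) (h2 : w ≤ z + 2 * P ^ 5) : HadOn (Fin (8 * (2 ^ j * (q * q' * w)))) := by
  obtain ⟨a1, a2, a3⟩ := hq
  obtain ⟨b1, b2, b3⟩ := hq'
  obtain ⟨u, p, s1, s2, s3, u1, u2, u3, k1, k2, k3, k4, k5⟩ := squares hz hw h1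
  have w0 : 0 < w := by omega
  have p2 : 2 ^ 102 ≤ P := (Nat.pow_le_pow_right two_pos (by omega)).trans hK
  have hle : ∀ {a b : ℕ}, 0 < b → q * q' * w = a * b → a ≤ X := fun hb e =>
    (Nat.le_mul_of_pos_right _ hb).trans
      (e ▸ (Nat.le_mul_of_pos_left _ (by positivity)).trans hX)
  have hq : ∀ q : ℕ, q.Prime → q ≡ 1 [MOD 2 ^ (t + 2)] → q ≤ X → HadOn (Fin (4 * q)) := by
    intro q a b d
    obtain ⟨l, hl⟩ := (Nat.modEq_iff_exists_eq_add a.one_le).1 b.symm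
    have e : 2 ^ (t + 2) * l = 2 * (2 ^ (t + 1) * l) := by ring
    have hl0 : 0 < l := Nat.pos_of_ne_zero (by rintro rfl; have := a.one_lt; omega)
    have hl1 : l ≤ 2 ^ (t + 2) * l := Nat.le_mul_of_pos_left l (by positivity)
    exact H7.miyamoto4 a (by omega) (((hG l hl0 (by omega)).had hl0).of_card (by simp; omega))
  have H1 := hq q a1 a2 (hle (mul_pos b1.pos w0) (by ring))
  have H2 := hq q' b1 b2 (hle (mul_pos a1.pos w0) (by ring))
  have wX : w ≤ X := hle (mul_pos a1.pos b1.pos) (by ring)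
  have d1 : (P ^ 6) ^ 500 ≤ P ^ 5000 := by
    rw [← pow_mul]; exact Nat.pow_le_pow_right (by omega) (by norm_num)
  have d2 : w - u ^ 2 * (p + 1) + u ^ 2 * 2 ^ (t + 4) ≤ P ^ 6 := by
    have e1 : u ^ 2 * 2 ^ (t + 4) ≤ (256 * P) ^ 2 * (4 * P) :=
      Nat.mul_le_mul (Nat.pow_le_pow_left u3 2) (by rw [pow_add 2 t 4]; rw [pow_add] at hK; omega)
    have e2 : 2 ^ 102 * P ^ 3 ≤ P ^ 4 := by rw [pow_succ' P 3]; exact Nat.mul_le_mul_right _ p2
    have e3 : 2 ^ 102 * P ^ 4 ≤ P ^ 5 := by rw [pow_succ' P 4]; exact Nat.mul_le_mul_right _ p2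
    have e4 : 2 ^ 102 * P ^ 5 ≤ P ^ 6 := by rw [pow_succ' P 5]; exact Nat.mul_le_mul_right _ p2
    rw [show (256 * P) ^ 2 * (4 * P) = 2 ^ 18 * P ^ 3 by ring] at e1
    omega
  have H3 : HadOn (Fin (4 * (2 ^ j * q))) :=
    ((hadOn_two_pow j).prod H1).of_card (by simp; ring)
  exact (key8 (fun l l1 l2 => hG l l1 (l2.trans wX)) hw u1 (by omega) k1 k2 k3 k5 d2
    ((d1.trans a3).trans (Nat.le_mul_of_pos_left _ (by positivity))) (d1.trans b3) H3 H2).of_card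
    (by simp; ring)

end Pool.Agent.MP_d8b1b3_co.H98p
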