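import Mathlib
import Pool.Agent.MP_100d00_nt.Sel2
import Pool.Agent.MP_d8b1b3_co.H88d.Count

/-!
Sieve bounds along the shifted primes, and the parameters.
-/

set_option autoImplicit false

namespace Pool.Agent.MP_d8b1b3_co.H98p

open Finset Filter Pool.Agent.MP_a96b63_al Pool.Agent.MP_d8b1b3_co.H88d

lemma hh_le_pow {n : ℕ} (S : Finset ℕ) (h : n.primeFactors ⊆ S) : hh n ≤ 2 ^ #S := by
  refine le_trans (prod_le_prod (g := fun _ => (2 : ℝ)) (fun q hq => ?_) fun q hq => ?_) ?_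
  · have := inv_pred_nonneg (Nat.prime_of_mem_primeFactors hq)
    linarith
  · have a : (2 : ℝ) ≤ q := by exact_mod_cast (Nat.prime_of_mem_primeFactors hq).two_le
    have : 1 / ((q : ℝ) - 1) ≤ 1 := (div_le_one (by linarith)).2 (by linarith)
    linarith
  · rw [prod_const]
    exact pow_le_pow_right₀ one_le_two (card_le_card h)

lemma hh_two (J : ℕ) : hh (8 * 2 ^ J) ≤ 2 := by
  have := hh_le_pow (n := 8 * 2 ^ J) {2} fun p hp => by
    have h1 := Nat.prime_of_mem_primeFactors hp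
    have h2 := Nat.dvd_of_mem_primeFactors hp
    rw [show 8 * 2 ^ J = 2 ^ (J + 3) by ring] at h2
    exact mem_singleton.2 ((Nat.prime_dvd_prime_iff_eq h1 Nat.prime_two).1 (h1.dvd_of_dvd_pow h2))
  simpa using this

theorem hh_le {j q q' : ℕ} (hq : q.Prime) (hq' : q'.Prime) : hh (8 * (2 ^ j * (q * q'))) ≤ 8 := by
  have := hh_le_pow (n := 8 * (2 ^ j * (q * q'))) {2, q, q'} fun p hp => by
    have h1 := Nat.prime_of_mem_primeFactors hp
    have h2 := Nat.dvd_of_mem_primeFactors hp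
    rw [show 8 * (2 ^ j * (q * q')) = 2 ^ (j + 3) * (q * q') by ring] at h2
    simp only [mem_insert, mem_singleton]
    rcases (Nat.Prime.dvd_mul h1).1 h2 with h | h
    · exact Or.inl ((Nat.prime_dvd_prime_iff_eq h1 Nat.prime_two).1 (h1.dvd_of_dvd_pow h))
    · rcases (Nat.Prime.dvd_mul h1).1 h with h | h
      · exact Or.inr (Or.inl ((Nat.prime_dvd_prime_iff_eq h1 hq).1 h))
      · exact Or.inr (Or.inr ((Nat.prime_dvd_prime_iff_eq h1 hq').1 h))
  refine this.trans (le_trans (pow_le_pow_right₀ one_le_two card_le_three) (by norm_num))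

/-- Row D: a high power of two. -/
theorem two_pow (X J : ℕ) {v : ℕ} (hv : 2 ≤ v) :
    (#{m ∈ Ioc 0 X | (8 * m + 1).Prime ∧ 2 ^ J ∣ m} : ℝ) ≤
      ((X : ℝ) / 2 ^ J + 1) * 2 / Real.log v + 2 * (v : ℝ) ^ 4 + v := by
  have h := sieve_one (d := 8 * 2 ^ J) (by positivity) hv 1 (X / 2 ^ J + 1)
  have l : 0 < Real.log v := Real.log_pos (by exact_mod_cast hv)
  have c : #{m ∈ Ioc 0 X | (8 * m + 1).Prime ∧ 2 ^ J ∣ m} ≤
      #{t ∈ range (X / 2 ^ J + 1) | (1 + 8 * 2 ^ J * t).Prime ∧ v < 1 + 8 * 2 ^ J * t} + v := by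
    refine le_trans (card_le_card (t := ({t ∈ range (X / 2 ^ J + 1) | (1 + 8 * 2 ^ J * t).Prime ∧
      v < 1 + 8 * 2 ^ J * t}.image fun t => 2 ^ J * t) ∪ range v) fun m hm => ?_)
      ((card_union_le _ _).trans (Nat.add_le_add card_image_le (by rw [card_range])))
    obtain ⟨a, b, t, rfl⟩ := mem_filter.1 hm
    rw [mem_Ioc] at a
    by_cases c : 2 ^ J * t < v
    · exact mem_union_right _ (mem_range.2 c)
    · refine mem_union_left _ (mem_image.2 ⟨t, mem_filter.2 ⟨mem_range.2 (Nat.lt_succ_of_le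
        ((Nat.le_div_iff_mul_le (by positivity)).2 (by rw [mul_comm]; exact a.2))), ?_, ?_⟩, rfl⟩)
      · rwa [add_comm, mul_assoc]
      · rw [mul_assoc]; omega
  refine (Nat.cast_le.2 c).trans ?_
  rw [Nat.cast_add]
  refine add_le_add (h.trans (add_le_add ?_ le_rfl)) le_rfl
  have d : ((X / 2 ^ J + 1 : ℕ) : ℝ) ≤ (X : ℝ) / 2 ^ J + 1 := by
    have := Nat.cast_div_le (α := ℝ) (m := X) (n := 2 ^ J)
    push_cast at this ⊢
    linarith
  have := hh_two J
  have := (hh_pos (8 * 2 ^ J)).le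
  gcongr

open Classical in
/-- Row C: Brun-Titchmarsh on blocks of length `P ^ 5`. -/
theorem blocks {P Y M : ℕ} (hP : 2 ≤ P) (hPM : P ≤ M) (hM : hh M ≤ 8) (good : ℕ → Prop) :
    (#{w ∈ Ioc 0 Y | (M * w + 1).Prime ∧ ¬ ∃ z, good z ∧ z ≤ w ∧ w ≤ z + 2 * P ^ 5} : ℝ) ≤
      (#{z ∈ Ioc 0 Y | ¬ good z} + 2 * (P : ℝ) ^ 5) * 10 / Real.log P := by
  obtain ⟨g, hg⟩ : ∃ g, g = P ^ 5 := ⟨_, rfl⟩
  have g0 : 0 < g := hg ▸ by positivity
  have l : 0 < Real.log P := Real.log_pos (by exact_mod_cast hP)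
  have P0 : (0 : ℝ) < P := by exact_mod_cast (by omega : 0 < P)
  rw [← Nat.cast_pow, ← hg]
  set S := {w ∈ Ioc 0 Y | (M * w + 1).Prime ∧ ¬ ∃ z, good z ∧ z ≤ w ∧ w ≤ z + 2 * g} with hS
  set B := {z ∈ Ioc 0 Y | ¬ good z} with hB
  set I := S.image (· / g) with hI
  have a1 : #I * g ≤ #B + 2 * g := by
    have b1 : #(({i ∈ I | 2 ≤ i}) ×ˢ range g) ≤ #B := by
      refine card_le_card_of_injOn (fun x => (x.1 - 1) * g + x.2) (fun x hx => ?_)
        fun x hx y hy h => ?_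
      · obtain ⟨c1, c2⟩ := mem_product.1 hx
        obtain ⟨c3, c4⟩ := mem_filter.1 c1
        obtain ⟨w, hw, e⟩ := mem_image.1 c3
        obtain ⟨c5, -, c6⟩ := mem_filter.1 hw
        rw [mem_Ioc] at c5
        rw [mem_range] at c2
        obtain ⟨k, hk⟩ : ∃ k, x.1 = k + 2 := ⟨x.1 - 2, by omega⟩
        have c7 := Nat.div_add_mod w g
        have c8 := Nat.mod_lt w g0
        rw [e, hk] at c7
        have c9 : (x.1 - 1) * g = g * k + g := by rw [hk]; simp; ring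
        have c10 : g * (k + 2) = g * k + 2 * g := by ring
        refine mem_coe.2 (mem_filter.2 ⟨mem_Ioc.2 ⟨?_, ?_⟩, fun c => c6 ⟨_, c, ?_, ?_⟩⟩) <;>
          dsimp only <;> omega
      · obtain ⟨c1, c2⟩ := mem_product.1 hx
        obtain ⟨d1, d2⟩ := mem_product.1 hy
        have c3 := (mem_filter.1 c1).2
        have d3 := (mem_filter.1 d1).2
        rw [mem_range] at c2 d2
        have e1 := congrArg (· / g) h
        have e2 := congrArg (· % g) h
        simp only [mul_comm _ g, Nat.mul_add_div g0, Nat.div_eq_of_lt c2, Nat.div_eq_of_lt d2,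
          Nat.mul_add_mod, Nat.mod_eq_of_lt c2, Nat.mod_eq_of_lt d2] at e1 e2
        exact Prod.ext (by omega) e2
    have b2 : #I ≤ #{i ∈ I | 2 ≤ i} + 2 := by
      refine le_trans (card_le_card (t := {i ∈ I | 2 ≤ i} ∪ range 2) fun i hi => ?_)
        ((card_union_le _ _).trans (by rw [card_range]))
      by_cases c : 2 ≤ i
      · exact mem_union_left _ (mem_filter.2 ⟨hi, c⟩)
      · exact mem_union_right _ (mem_range.2 (by omega))
    rw [card_product, card_range] at b1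
    nlinarith
  have a2 : ∀ i ∈ I, (#{w ∈ S | w / g = i} : ℝ) ≤ g * 10 / Real.log P := by
    intro i _
    have h := sieve_one (d := M) (by omega) hP (M * (g * i) + 1) g
    have c : #{w ∈ S | w / g = i} ≤
        #{t ∈ range g | (M * (g * i) + 1 + M * t).Prime ∧ P < M * (g * i) + 1 + M * t} := by
      refine card_le_card_of_injOn (· % g) (fun w hw => ?_) fun w hw w' hw' e => ?_
      · obtain ⟨c1, c2⟩ := mem_filter.1 hw
        obtain ⟨c3, c4, -⟩ := mem_filter.1 c1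
        have e : M * (g * i) + 1 + M * (w % g) = M * w + 1 := by
          conv_rhs => rw [← Nat.div_add_mod w g, c2]
          ring
        have := Nat.le_mul_of_pos_right M (mem_Ioc.1 c3).1
        exact mem_coe.2 (mem_filter.2 ⟨mem_range.2 (Nat.mod_lt _ g0), e ▸ c4, e ▸ by omega⟩)
      · rw [← Nat.div_add_mod w g, ← Nat.div_add_mod w' g, (mem_filter.1 hw).2,
          (mem_filter.1 hw').2, show w % g = w' % g from e]
    refine (Nat.cast_le.2 c).trans (h.trans ?_)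
    have d1 : (g : ℝ) * hh M / Real.log P ≤ g * 8 / Real.log P := by gcongr
    have d2 : (P : ℝ) ^ 4 ≤ g / Real.log P := by
      rw [le_div_iff₀ l, hg, Nat.cast_pow, pow_succ (P : ℝ) 4]
      exact mul_le_mul_of_nonneg_left ((Real.log_le_sub_one_of_pos P0).trans (by linarith))
        (by positivity)
    have e : (g : ℝ) * 10 / Real.log P = g * 8 / Real.log P + 2 * (g / Real.log P) := by ring
    linarith
  have a3 : (#S : ℝ) ≤ #I * (g * 10 / Real.log P) := by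
    rw [card_eq_sum_card_image (· / g) S, Nat.cast_sum, ← nsmul_eq_mul]
    exact sum_le_card_nsmul _ _ _ a2
  have a4 : (#I : ℝ) * g ≤ #B + 2 * g := by exact_mod_cast a1
  refine a3.trans ?_
  rw [← mul_div_assoc, ← mul_assoc]
  gcongr

lemma GG_mul2 (P : Finset ℕ) (hP : ∀ q ∈ P, 0 < q) (x y : ℕ → ℝ) (hx : ∀ q ∈ P, 0 ≤ x q)
    (hy : ∀ q ∈ P, 0 ≤ y q) (z z' : ℕ) :
    GG P x z * GG P y z' ≤ GG P (fun q => x q + y q + x q * y q) (z * z') := by
  induction P using Finset.induction_on generalizing z z' with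
  | empty =>
    simp only [GG, powerset_empty, sum_filter, sum_singleton, prod_empty]
    split_ifs with h1 h2 h3 <;> first | exact absurd (Nat.mul_le_mul h1 h2) h3 | simp
  | insert q P hq ih =>
    have h1 := fun p hp => hP p (mem_insert_of_mem hp)
    have h2 := fun p hp => hx p (mem_insert_of_mem hp)
    have h2' := fun p hp => hy p (mem_insert_of_mem hp)
    have h3 := hP q (mem_insert_self _ _)
    have h4 := hx q (mem_insert_self _ _)
    have h4' := hy q (mem_insert_self _ _)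
    have h5 : ∀ p ∈ P, 0 ≤ x p + y p + x p * y p := fun p hp => by
      have := h2 p hp
      have := h2' p hp
      positivity
    rw [GG_insert hq h3, GG_insert hq h3, GG_insert hq h3]
    have a1 := ih h1 h2 h2' z z'
    have a2 := (ih h1 h2 h2' (z / q) z').trans (GG_mono h5 (fun _ _ => le_rfl)
      (show z / q * z' ≤ z * z' / q by
        rw [mul_comm, mul_comm z]; exact Nat.mul_div_le_mul_div_assoc _ _ _))
    have a3 := (ih h1 h2 h2' z (z' / q)).trans (GG_mono h5 (fun _ _ => le_rfl)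
      (Nat.mul_div_le_mul_div_assoc z z' q))
    have a4 := (ih h1 h2 h2' (z / q) (z' / q)).trans (GG_mono h5 (fun _ _ => le_rfl)
      (le_trans (Nat.mul_le_mul_right _ (Nat.div_le_self z q))
        (Nat.mul_div_le_mul_div_assoc z z' q)))
    have b2 := mul_le_mul_of_nonneg_left a2 h4
    have b3 := mul_le_mul_of_nonneg_left a3 h4'
    have b4 := mul_le_mul_of_nonneg_left a4 (mul_nonneg h4 h4')
    nlinarith

lemma sum_le_GG {P Q : Finset ℕ} (h : Q ⊆ P) {y : ℕ → ℝ} (hy : ∀ q ∈ P, 0 ≤ y q) {z : ℕ}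
    (hz : ∀ q ∈ Q, q ≤ z) : ∑ q ∈ Q, y q ≤ GG P y z := by
  have e : ∑ q ∈ Q, y q = ∑ S ∈ Q.image (fun q => ({q} : Finset ℕ)), ∏ q ∈ S, y q := by
    rw [sum_image fun a _ b _ e => singleton_injective e]
    simp
  rw [e]
  refine sum_le_sum_of_subset_of_nonneg (fun S hS => ?_) fun S hS _ =>
    prod_nonneg fun q hq => hy q (mem_powerset.1 (mem_filter.1 hS).1 hq)
  obtain ⟨q, hq, rfl⟩ := mem_image.1 hS
  exact mem_filter.2 ⟨mem_powerset.2 (singleton_subset_iff.2 (h hq)), by simpa using hz q hq⟩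

/-- Row E: no prime factor in `Q`. -/
theorem no_factor (X : ℕ) {v : ℕ} (hv : 2 ≤ v) (Q : Finset ℕ)
    (hQ : ∀ q ∈ Q, q.Prime ∧ 2 < q ∧ q ≤ v) {Λ : ℝ} (hΛ : 0 < Λ)
    (h : Λ ≤ ∑ q ∈ Q, (1 : ℝ) / q) :
    (#{m ∈ Ioc 0 X | (8 * m + 1).Prime ∧ ∀ q ∈ Q, ¬ q ∣ m} : ℝ) ≤
      ((X : ℝ) + 1) * 2 / (Λ * Real.log v) + 2 * (v : ℝ) ^ 8 + v := by
  have hP : ∀ q ∈ PP v 2, q.Prime ∧ 2 < q ∧ q ≤ v := fun q hq => by
    obtain ⟨a, b, c⟩ := mem_filter.1 hq
    have := b.two_le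
    have : q ≠ 2 := fun e => c (e ▸ dvd_rfl)
    exact ⟨b, by omega, Nat.le_of_lt_succ (mem_range.1 a)⟩
  have hQP : Q ⊆ PP v 2 := fun q hq => mem_filter.2 ⟨mem_range.2 (Nat.lt_succ_of_le (hQ q hq).2.2),
    (hQ q hq).1, fun c => absurd (Nat.le_of_dvd two_pos c) (not_le.2 (hQ q hq).2.1)⟩
  have h8 : ∀ q ∈ PP v 2, ¬ q ∣ 8 := fun q hq c => (mem_filter.1 hq).2.2
    ((hP q hq).1.dvd_of_dvd_pow (show q ∣ 2 ^ 3 from c))
  have s := MP_100d00_nt.selberg2 (PP v 2) (fun q hq => (hP q hq).1)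
    (fun q t => q ∣ 1 + 8 * t ∨ (q ∈ Q ∧ q ∣ 0 + 1 * t))
    (fun q _ t => by rw [dvd_mod_iff', dvd_mod_iff']) (fun q => if q ∈ Q then 2 else 1)
    (fun q _ => by split_ifs <;> norm_num)
    (fun q hq => by
      by_cases c : q ∈ Q
      · simp only [c, true_and, if_true]
        rw [filter_or, card_union_of_disjoint, card_root (hP q hq).1 (h8 q hq),
          card_root (hP q hq).1 (hP q hq).1.not_dvd_one]
        rw [disjoint_left]
        intro t a b
        have b1 := (mem_filter.1 b).2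
        rw [zero_add, one_mul] at b1
        exact (hP q hq).1.not_dvd_one ((Nat.dvd_add_left (b1.mul_left 8)).1 (mem_filter.1 a).2)
      · simp only [c, false_and, or_false, if_false]
        exact card_root (hP q hq).1 (h8 q hq) 1)
    (fun q hq => by have := (hP q hq).2.1; split_ifs <;> omega) (z := v * v)
    (Nat.mul_pos (by omega) (by omega)) (X + 1)
  have l : 0 < Real.log v := Real.log_pos (by exact_mod_cast hv)
  have x0 : ∀ q ∈ PP v 2, 0 ≤ 1 / ((q : ℝ) - 1) := fun q hq => inv_pred_nonneg (hP q hq).1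
  have y0 : ∀ q ∈ PP v 2, 0 ≤ if q ∈ Q then 1 / ((q : ℝ) - 1) else 0 := fun q hq => by
    split_ifs
    · exact x0 q hq
    · exact le_rfl
  have g1 := log_le_GG v (D := 2) two_ne_zero
  have g2 : hh 2 = 2 := by
    rw [hh, Nat.prime_two.primeFactors, prod_singleton]; norm_num
  have g3 : Λ ≤ GG (PP v 2) (fun q => if q ∈ Q then 1 / ((q : ℝ) - 1) else 0) v := by
    refine (h.trans (sum_le_sum fun q hq => ?_)).trans (sum_le_GG hQP y0 fun q hq => (hQ q hq).2.2)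
    have : (2 : ℝ) < q := by exact_mod_cast (hQ q hq).2.1
    rw [if_pos hq]
    exact one_div_le_one_div_of_le (by linarith) (by linarith)
  have g4 := (GG_mul2 (PP v 2) (fun q hq => (hP q hq).1.pos) _ _ x0 y0 v v).trans
    (GG_mono (x' := fun q => ((if q ∈ Q then 2 else 1 : ℕ) : ℝ) / (q - (if q ∈ Q then 2 else 1 : ℕ)))
      (fun q hq => by have := x0 q hq; have := y0 q hq; positivity) (fun q hq => by
        have a : (2 : ℝ) < q := by exact_mod_cast (hP q hq).2.1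
        split_ifs
        · have b : (0 : ℝ) < q - 1 := by linarith
          rw [Nat.cast_ofNat, le_div_iff₀ (by linarith)]
          field_simp
          nlinarith
        · simp) le_rfl)
  have g5 : Λ * Real.log v / 2 ≤ GG (PP v 2)
      (fun q => ((if q ∈ Q then 2 else 1 : ℕ) : ℝ) / (q - (if q ∈ Q then 2 else 1 : ℕ))) (v * v) := by
    refine le_trans ?_ g4
    rw [g2] at g1
    rw [mul_comm, mul_div_right_comm]
    exact mul_le_mul (by linarith) g3 hΛ.le (GG_nonneg x0 v)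
  have c : #{m ∈ Ioc 0 X | (8 * m + 1).Prime ∧ ∀ q ∈ Q, ¬ q ∣ m} ≤ #{t ∈ range (X + 1) |
      ∀ q ∈ PP v 2, ¬ (q ∣ 1 + 8 * t ∨ (q ∈ Q ∧ q ∣ 0 + 1 * t))} + v := by
    refine le_trans (card_le_card (t := {t ∈ range (X + 1) |
      ∀ q ∈ PP v 2, ¬ (q ∣ 1 + 8 * t ∨ (q ∈ Q ∧ q ∣ 0 + 1 * t))} ∪ range v) fun m hm => ?_)
      ((card_union_le _ _).trans (by rw [card_range]))
    obtain ⟨a, b, d⟩ := mem_filter.1 hm
    by_cases c : m < v
    · exact mem_union_right _ (mem_range.2 c)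
    · refine mem_union_left _ (mem_filter.2 ⟨mem_range.2 (Nat.lt_succ_of_le (mem_Ioc.1 a).2),
        fun q hq e => e.elim (fun e => ?_) fun e => d q e.1 (by simpa using e.2)⟩)
      have := (Nat.prime_dvd_prime_iff_eq (hP q hq).1 b).1 (by rwa [add_comm])
      have := (hP q hq).2.2
      omega
  refine (Nat.cast_le.2 c).trans ?_
  rw [Nat.cast_add]
  refine add_le_add (s.trans (add_le_add ?_ (le_of_eq (by push_cast; ring)))) le_rfl
  refine (div_le_div_of_nonneg_left (by positivity) (by positivity) g5).trans (le_of_eq ?_)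
  push_cast
  field_simp

/-- Row F: the parameters. -/
theorem params2 (Λ P₀ : ℕ) (hΛ : 0 < Λ) : ∀ᶠ X : ℕ in atTop, ∃ P R v : ℕ, P₀ ≤ P ∧
    2 ^ (20 * R) ≤ Nat.log 2 P ∧ X ≤ P ^ R ∧ P ^ 5000 ≤ v ∧ v ^ 16 ≤ X ∧ X ≤ v ^ 20 ∧
    ∀ K : ℕ, 0 < K → 2 ^ 2 ^ 2 ^ K ≤ Nat.log 2 X → K ≤ P ∧ ∃ Q : Finset ℕ,
      (∀ q ∈ Q, q.Prime ∧ q ≡ 1 [MOD K] ∧ P ^ 5000 ≤ q ∧ q ≤ v) ∧
      (Λ : ℝ) ≤ ∑ q ∈ Q, (1 : ℝ) / q ∧ ∑ q ∈ Q, (1 : ℝ) / q ≤ Λ + 1 := by
  obtain ⟨x₀, hx₀⟩ := primes_range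
  have T := lg_tendsto
  filter_upwards [(T.comp (T.comp (T.comp T))).eventually_ge_atTop (200 * Λ + 22 + P₀ + x₀)]
    with X hX
  simp only [Function.comp_apply] at hX
  have hXL := Nat.lt_pow_succ_log_self one_lt_two X
  set L := Nat.log 2 X
  set a2 := Nat.log 2 L
  set a3 := Nat.log 2 a2
  set a4 := Nat.log 2 a3
  have n3 : a3 ≠ 0 := lg_ne (by omega)
  have n2 : a2 ≠ 0 := lg_ne n3
  have n1 : L ≠ 0 := lg_ne n2
  have n0 : X ≠ 0 := lg_ne n1
  have p4 : 2 ^ a4 ≤ a3 := Nat.pow_log_le_self 2 n3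
  have p3 : 2 ^ a3 ≤ a2 := Nat.pow_log_le_self 2 n2
  have p2 : 2 ^ a2 ≤ L := Nat.pow_log_le_self 2 n1
  have p1 : 2 ^ L ≤ X := Nat.pow_log_le_self 2 n0
  have m : ∀ {a b : ℕ}, a ≤ b → 2 ^ a ≤ 2 ^ b := fun h => Nat.pow_le_pow_right two_pos h
  have q1 : a4 * a4 ≤ a3 := (mul_self_le a4 (by omega)).trans p4
  have q2 : (200 * Λ + 22) * a4 ≤ a3 := (Nat.mul_le_mul_right a4 (by omega)).trans q1
  have q0 : 22 ≤ a3 := le_trans (by omega) (Nat.lt_two_pow_self.le.trans p4)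
  obtain ⟨σ, hσ⟩ : ∃ σ, a3 = σ + 22 := ⟨a3 - 22, by omega⟩
  have q3 : 200 * Λ * a4 ≤ σ := by nlinarith
  have q4 : a4 ≤ σ := by nlinarith
  obtain ⟨s, hs⟩ : ∃ s, s = 2 ^ σ := ⟨_, rfl⟩
  have s1 : σ < s := hs ▸ Nat.lt_two_pow_self
  have s2 : 4194304 * s ≤ a2 := by
    rw [hσ, pow_add, ← hs] at p3
    omega
  have s3 : 2 ^ (3840000 * s) * (96000 * s) ≤ L := by
    have : 96000 * s ≤ 2 ^ (354304 * s) :=
      le_trans (by omega) (Nat.lt_two_pow_self (n := 354304 * s)).le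
    refine (Nat.mul_le_mul_left _ this).trans ?_
    rw [← pow_add]
    exact (m (by omega)).trans p2
  obtain ⟨b, hb⟩ : ∃ b, b = L / (96000 * s) := ⟨_, rfl⟩
  have b1 : 2 ^ (3840000 * s) ≤ b := hb ▸ (Nat.le_div_iff_mul_le (by omega)).2 s3
  have b2 : 3840000 * s < b := Nat.lt_two_pow_self.trans_le b1
  have b3 : b * (96000 * s) ≤ L := hb ▸ Nat.div_mul_le_self _ _
  have b4 : L < 96000 * s * (b + 1) := hb ▸ Nat.lt_mul_div_succ L (by omega)
  have b5 : b < 2 ^ b := Nat.lt_two_pow_self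
  have b6 : 6000 * (b * s) ≤ L / 16 := by
    rw [Nat.le_div_iff_mul_le (by norm_num)]
    nlinarith
  have b7 : b ≤ b * s := Nat.le_mul_of_pos_right b (by omega)
  refine ⟨2 ^ b, 192000 * s, 2 ^ (L / 16), by omega, ?_, ?_, ?_, ?_, ?_, fun K hK hKL => ?_⟩
  · rw [Nat.log_pow one_lt_two]
    exact le_trans (le_of_eq (by congr 1; ring)) b1
  · rw [← pow_mul]
    exact hXL.le.trans (m (by nlinarith))
  · rw [← pow_mul]
    exact m (by omega)
  · rw [← pow_mul]
    exact (m (by omega)).trans p1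
  · rw [← pow_mul]
    exact hXL.le.trans (m (by omega))
  · have k1 : K ≤ a4 := Nat.le_log_of_pow_le one_lt_two (Nat.le_log_of_pow_le one_lt_two
      (Nat.le_log_of_pow_le one_lt_two hKL))
    obtain ⟨Q, h1, h2⟩ := hx₀ (1000 * b) σ K Λ (by omega) hK (by omega) hΛ
      ((Nat.mul_le_mul_left _ k1).trans q3)
    refine ⟨by omega, Q, fun q hq => ?_, h2⟩
    obtain ⟨k2, k3, k4, k5⟩ := h1 q hq
    rw [show (64 : ℕ) = 2 ^ 6 by norm_num, ← pow_mul] at k4 k5
    refine ⟨k2, k3, ?_, ?_⟩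
    · rw [← pow_mul]
      exact (m (by omega)).trans k4
    · refine k5.trans (m ?_)
      rw [← hs]
      exact le_trans (le_of_eq (by ring)) b6

end Pool.Agent.MP_d8b1b3_co.H98p
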