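import Mathlib
import Pool.Agent.MP_d8b1b3_co.H98p.SIq
import Pool.Agent.MP_d8b1b3_co.H98p.Sv

/-!
Hadamard matrices of order `p - 1` and `4 p` for almost all primes `p ≡ 1 mod 8`.
-/

set_option autoImplicit false

namespace Pool.Agent.MP_d8b1b3_co.H98p

open Finset Filter Pool.Agent.MP_a96b63_al Pool.Agent.MP_d8b1b3_co.H88d

open Classical in
/-- Row G1: the covering of the exceptional set. -/
theorem cover (X J : ℕ) (Q₁ Q₂ : Finset ℕ) (h₁ : ∀ q ∈ Q₁, q.Prime) (h₂ : ∀ q ∈ Q₂, q.Prime)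
    (hd : Disjoint Q₁ Q₂) (S g : ℕ → Prop)
    (hS : ∀ j : ℕ, ∀ q ∈ Q₁, ∀ q' ∈ Q₂, ∀ w : ℕ, 2 ^ j * (q * q' * w) ≤ X → w % 2 = 1 → g w →
      S (2 ^ j * (q * q' * w))) :
    #{m ∈ Ioc 0 X | (8 * m + 1).Prime ∧ ¬ S m} ≤
      #{m ∈ Ioc 0 X | (8 * m + 1).Prime ∧ 2 ^ J ∣ m} +
      #{m ∈ Ioc 0 X | (8 * m + 1).Prime ∧ ∀ q ∈ Q₁, ¬ q ∣ m} +
      #{m ∈ Ioc 0 X | (8 * m + 1).Prime ∧ ∀ q ∈ Q₂, ¬ q ∣ m} +
      ∑ j ∈ range J, ∑ q ∈ Q₁, ∑ q' ∈ Q₂,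
        #{w ∈ Ioc 0 (X / (q * q')) | (8 * (2 ^ j * (q * q')) * w + 1).Prime ∧ ¬ g w} := by
  have sub : {m ∈ Ioc 0 X | (8 * m + 1).Prime ∧ ¬ S m} ⊆
      {m ∈ Ioc 0 X | (8 * m + 1).Prime ∧ 2 ^ J ∣ m} ∪
      {m ∈ Ioc 0 X | (8 * m + 1).Prime ∧ ∀ q ∈ Q₁, ¬ q ∣ m} ∪
      {m ∈ Ioc 0 X | (8 * m + 1).Prime ∧ ∀ q ∈ Q₂, ¬ q ∣ m} ∪
      (range J).biUnion fun j => Q₁.biUnion fun q => Q₂.biUnion fun q' =>
        {w ∈ Ioc 0 (X / (q * q')) | (8 * (2 ^ j * (q * q')) * w + 1).Prime ∧ ¬ g w}.image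
          fun w => 2 ^ j * (q * q' * w) := by
    intro m hm
    obtain ⟨m1, m0, m2⟩ := mem_filter.1 hm
    by_cases a : 2 ^ J ∣ m
    · exact mem_union_left _ (mem_union_left _ (mem_union_left _ (mem_filter.2 ⟨m1, m0, a⟩)))
    by_cases b : ∀ q ∈ Q₁, ¬ q ∣ m
    · exact mem_union_left _ (mem_union_left _ (mem_union_right _ (mem_filter.2 ⟨m1, m0, b⟩)))
    by_cases b' : ∀ q ∈ Q₂, ¬ q ∣ m
    · exact mem_union_left _ (mem_union_right _ (mem_filter.2 ⟨m1, m0, b'⟩))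
    refine mem_union_right _ ?_
    simp only [not_forall, not_not] at b b'
    obtain ⟨q, q1, q2⟩ := b
    obtain ⟨q', q3, q4⟩ := b'
    have hne : q ≠ q' := fun e => disjoint_left.1 hd q1 (e ▸ q3)
    obtain ⟨n, hn⟩ := ((Nat.coprime_primes (h₁ q q1) (h₂ q' q3)).2 hne).mul_dvd_of_dvd_of_dvd q2 q4
    obtain ⟨m3, m4⟩ := mem_Ioc.1 m1
    have n0 : n ≠ 0 := by rintro rfl; omega
    obtain ⟨j, w, hw, hj⟩ := Nat.exists_eq_two_pow_mul_odd n0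
    have e : m = 2 ^ j * (q * q' * w) := by rw [hn, hj]; ring
    have hjJ : j < J := by
      by_contra c
      exact a (e ▸ (pow_dvd_pow 2 (not_lt.1 c)).mul_right _)
    refine mem_biUnion.2 ⟨j, mem_range.2 hjJ, mem_biUnion.2 ⟨q, q1, mem_biUnion.2 ⟨q', q3,
      mem_image.2 ⟨w, mem_filter.2 ⟨mem_Ioc.2 ⟨hw.pos, ?_⟩, ?_, fun c => m2
        (e ▸ hS j q q1 q' q3 w (e ▸ m4) (Nat.odd_iff.1 hw) c)⟩, e.symm⟩⟩⟩⟩
    · rw [Nat.le_div_iff_mul_le (mul_pos (h₁ q q1).pos (h₂ q' q3).pos), mul_comm]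
      exact (Nat.le_mul_of_pos_left _ (by positivity)).trans (e ▸ m4)
    · rwa [show 8 * (2 ^ j * (q * q')) * w = 8 * m by rw [e]; ring]
  refine (card_le_card sub).trans ((card_union_le _ _).trans (Nat.add_le_add
    ((card_union_le _ _).trans (Nat.add_le_add_right (card_union_le _ _) _)) ?_))
  exact card_biUnion_le.trans (sum_le_sum fun j _ => card_biUnion_le.trans (sum_le_sum fun q _ =>
    card_biUnion_le.trans (sum_le_sum fun q' _ => card_image_le)))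

open Classical in
/-- Row G2: one term of the triple sum. -/
theorem term {X P R v j q q' : ℕ} {η : ℝ} (hη : 0 < η) (hP : 2 ≤ P) (hP' : 2 ≤ η * P)
    (hR : 2 ^ (20 * R) ≤ Nat.log 2 P) (hX : X ≤ P ^ R) (hv : P ^ 5000 ≤ v) (hv' : v ^ 16 ≤ X)
    (hq : q.Prime ∧ P ^ 5000 ≤ q ∧ q ≤ v) (hq' : q'.Prime ∧ P ^ 5000 ≤ q' ∧ q' ≤ v)
    (good : ℕ → Prop) (hg : ∀ Z : ℕ, P ^ 10 ≤ Z → Z ≤ P ^ R →
      (#{z ∈ Ioc 0 Z | ¬ good z} : ℝ) ≤ η / R * Z) :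
    (#{w ∈ Ioc 0 (X / (q * q')) | (8 * (2 ^ j * (q * q')) * w + 1).Prime ∧
      ¬ ∃ z, good z ∧ z ≤ w ∧ w ≤ z + 2 * P ^ 5} : ℝ) ≤
      20 * η * (1 / q * (1 / q')) * (X / Real.log X) := by
  obtain ⟨a1, a2, a3⟩ := hq
  obtain ⟨b1, b2, b3⟩ := hq'
  have p1 : P ^ 10 ≤ P ^ 5000 := Nat.pow_le_pow_right (by omega) (by norm_num)
  have p2 : P ≤ P ^ 10 := Nat.le_self_pow (by norm_num) P
  generalize P ^ 5000 = T at *
  have v2 : 2 ≤ v := by omega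
  have d1 : P ^ 10 ≤ X / (q * q') := by
    refine (Nat.le_div_iff_mul_le (mul_pos a1.pos b1.pos)).2 (le_trans ?_ hv')
    calc _ ≤ v * (v * v) := by gcongr; omega
      _ = v ^ 3 := by ring
      _ ≤ _ := Nat.pow_le_pow_right (by omega) (by norm_num)
  have d2 : P ≤ 8 * (2 ^ j * (q * q')) :=
    le_trans (by omega : P ≤ q) ((Nat.le_mul_of_pos_right _ b1.pos).trans
      ((Nat.le_mul_of_pos_left _ (by positivity)).trans (Nat.le_mul_of_pos_left _ (by norm_num))))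
  have X2 : 2 ≤ X := (v2.trans (Nat.le_self_pow (by norm_num) v)).trans hv'
  have lX : 0 < Real.log X := Real.log_pos (by exact_mod_cast X2)
  have lP : 0 < Real.log P := Real.log_pos (by exact_mod_cast hP)
  have l1 : Real.log X ≤ R * Real.log P := by
    rw [← Real.log_pow]
    exact Real.log_le_log (by exact_mod_cast (by omega : 0 < X)) (by exact_mod_cast hX)
  have R0 : (0 : ℝ) < R := by
    by_contra c
    nlinarith [Nat.cast_nonneg (α := ℝ) R]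
  have RP : (R : ℝ) ≤ P := by
    have := Nat.lt_two_pow_self (n := 20 * R)
    have := Nat.log_le_self 2 P
    exact_mod_cast (by omega : R ≤ P)
  have d3 : ((X / (q * q') : ℕ) : ℝ) ≤ 1 / q * (1 / q') * X := by
    refine Nat.cast_div_le.trans (le_of_eq ?_)
    push_cast
    ring
  have h1 := hg _ d1 ((Nat.div_le_self _ _).trans hX)
  refine (blocks hP d2 (hh_le a1 b1) good).trans ?_
  have d4 : (P : ℝ) ^ 10 ≤ (X / (q * q') : ℕ) := by exact_mod_cast d1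
  generalize ((X / (q * q') : ℕ) : ℝ) = Y at d3 d4 h1 ⊢
  have P1 : (1 : ℝ) ≤ P := by exact_mod_cast (by omega : 1 ≤ P)
  have d5 : 2 * (P : ℝ) ^ 5 ≤ η / R * Y := by
    rw [div_mul_eq_mul_div, le_div_iff₀ R0]
    calc _ ≤ η * P * (P : ℝ) ^ 5 * P := by gcongr
      _ = η * P ^ 7 := by ring
      _ ≤ η * P ^ 10 := by gcongr; norm_num
      _ ≤ _ := by gcongr
  have Y0 : 0 ≤ Y := le_trans (by positivity) d4
  calc _ ≤ (η / R * Y + η / R * Y) * 10 / Real.log P := by gcongr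
    _ = 20 * η * Y / (R * Real.log P) := by field_simp; ring
    _ ≤ 20 * η * (1 / q * (1 / q') * X) / Real.log X := by gcongr
    _ = _ := by ring

open Classical in
/-- Row G3: few shifted primes are exceptional. -/
theorem few (ε : ℝ) (hε : 0 < ε) : ∀ᶠ X : ℕ in atTop,
    (#{m ∈ Ioc 0 X | (8 * m + 1).Prime ∧ ¬ HadOn (Fin (8 * m))} : ℝ) ≤ ε * (X / Real.log X) := by
  obtain ⟨J, hJ⟩ : ∃ J : ℕ, 200 / ε < J := exists_nat_gt _
  obtain ⟨Λ, hΛ⟩ : ∃ Λ : ℕ, 400 / ε + 1 < Λ := exists_nat_gt _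
  have Λ1 : (1 : ℝ) ≤ Λ := by linarith [div_pos (show (0 : ℝ) < 400 by norm_num) hε]
  have J0 : (0 : ℝ) < J := (div_pos (by norm_num) hε).trans hJ
  obtain ⟨η, η0, hη⟩ : ∃ η : ℝ, 0 < η ∧ J * (20 * η * (2 * Λ + 2) ^ 2) = ε / 5 :=
    ⟨ε / (100 * J * (2 * Λ + 2) ^ 2), by positivity, by field_simp; ring⟩
  have tc := tendsto_natCast_atTop_atTop (R := ℝ)
  obtain ⟨P₀, hP₀⟩ := eventually_atTop.1 (((good_q η η0).and (tc.eventually_ge_atTop (2 / η))).and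
    (tc.eventually_ge_atTop (2000 / ε)))
  filter_upwards [params2 (2 * Λ + 1) P₀ (by omega), logstar_tiny]
    with X ⟨P, R, v, p1, p2, p3, p4, p5, p6, p7⟩ ⟨t, t1, t2, t3⟩
  obtain ⟨⟨s1, s2⟩, s3⟩ := hP₀ P p1
  obtain ⟨k1, Q, k2, k3, k4⟩ := p7 (2 ^ (t + 2)) (by positivity) t3
  push_cast at k3 k4
  have P3 : 3 ≤ P := le_trans (by rw [pow_add]; nlinarith [Nat.one_le_two_pow (n := t)]) k1
  have PT : P ≤ P ^ 5000 := Nat.le_self_pow (by norm_num) P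
  obtain ⟨Q₁, c1, c2, c3⟩ := subset_sum Q (fun q => (1 : ℝ) / q) (fun q hq => by
    have : (1 : ℝ) ≤ q := by exact_mod_cast (k2 q hq).1.one_le
    exact (div_le_one (by linarith)).mpr this) (a := Λ) (by linarith) (by linarith)
  have c4 := sum_sdiff (f := fun q : ℕ => (1 : ℝ) / q) c1
  have c5 : Q \ Q₁ ⊆ Q := sdiff_subset
  have hq : ∀ q ∈ Q, q.Prime ∧ 2 < q ∧ q ≤ v := fun q hq =>
    ⟨(k2 q hq).1, lt_of_lt_of_le (by omega) (PT.trans (k2 q hq).2.2.1), (k2 q hq).2.2.2⟩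
  have v3 : P ≤ v := PT.trans p4
  have v2 : 2 ≤ v := by omega
  have cv := (Nat.cast_le (α := ℝ)).2 (cover X J Q₁ (Q \ Q₁) (fun q h => (k2 q (c1 h)).1)
    (fun q h => (k2 q (c5 h)).1) disjoint_sdiff (fun m => HadOn (Fin (8 * m)))
    (fun w => ∃ z, H68.Od.Good P z ∧ z ≤ w ∧ w ≤ z + 2 * P ^ 5)
    fun j q h q' h' w h1 h2 ⟨z, z1, z2, z3⟩ => had_of_good t1 t2 k1 h1
      ⟨(k2 q (c1 h)).1, (k2 q (c1 h)).2.1, (k2 q (c1 h)).2.2.1⟩
      ⟨(k2 q' (c5 h')).1, (k2 q' (c5 h')).2.1, (k2 q' (c5 h')).2.2.1⟩ h2 z1 z2 z3)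
  push_cast at cv
  have X2 : 2 ≤ X := (v2.trans (Nat.le_self_pow (by norm_num) v)).trans p5
  have lX : 0 < Real.log X := Real.log_pos (by exact_mod_cast X2)
  have lv : 0 < Real.log v := Real.log_pos (by exact_mod_cast v2)
  have l1 : Real.log X ≤ 20 * Real.log v := by
    have := Real.log_le_log (by exact_mod_cast (by omega : 0 < X))
      (show (X : ℝ) ≤ v ^ 20 by exact_mod_cast p6)
    rwa [Real.log_pow, Nat.cast_ofNat] at this
  have X1 : (1 : ℝ) ≤ X := by exact_mod_cast (by omega : 1 ≤ X)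
  have v1 : (2 : ℝ) ≤ v := by exact_mod_cast v2
  have e0 : (X : ℝ) / Real.log v ≤ 20 * (X / Real.log X) := by
    rw [← mul_div_assoc, div_le_div_iff₀ lv lX]
    nlinarith
  have W0 : 0 ≤ (X : ℝ) / Real.log X := by positivity
  have e1 := two_pow X J v2
  have e2 := no_factor X v2 Q₁ (fun q h => hq q (c1 h)) (Λ := Λ) (by linarith) c2
  have e3 := no_factor X v2 (Q \ Q₁) (fun q h => hq q (c5 h)) (Λ := Λ) (by linarith) (by linarith)
  have e4 : ∑ j ∈ range J, ∑ q ∈ Q₁, ∑ q' ∈ Q \ Q₁, (#{w ∈ Ioc 0 (X / (q * q')) |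
      (8 * (2 ^ j * (q * q')) * w + 1).Prime ∧
        ¬ ∃ z, H68.Od.Good P z ∧ z ≤ w ∧ w ≤ z + 2 * P ^ 5} : ℝ) ≤ ε / 5 * (X / Real.log X) := by
    refine (sum_le_sum fun j _ => sum_le_sum fun q h => sum_le_sum fun q' h' =>
      term η0 (by omega) (by rwa [div_le_iff₀' η0] at s2) p2 p3 p4 p5
        ⟨(k2 q (c1 h)).1, (k2 q (c1 h)).2.2⟩ ⟨(k2 q' (c5 h')).1, (k2 q' (c5 h')).2.2⟩
        (H68.Od.Good P) fun Z => s1 R Z p2).trans ?_
    have a0 : ∑ q ∈ Q₁, ∑ q' ∈ Q \ Q₁, 20 * η * (1 / (q : ℝ) * (1 / q')) * (X / Real.log X) =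
        20 * η * ((∑ q ∈ Q₁, (1 : ℝ) / q) * ∑ q ∈ Q \ Q₁, (1 : ℝ) / q) * (X / Real.log X) := by
      rw [sum_mul_sum, mul_sum, sum_mul]
      refine sum_congr rfl fun q _ => ?_
      rw [mul_sum, sum_mul]
    have a1 : 0 ≤ ∑ q ∈ Q \ Q₁, (1 : ℝ) / q := by positivity
    have a2 : (∑ q ∈ Q₁, (1 : ℝ) / q) * ∑ q ∈ Q \ Q₁, (1 : ℝ) / q ≤ (2 * Λ + 2) ^ 2 := by
      rw [sq]
      exact mul_le_mul (by linarith) (by linarith) a1 (by positivity)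
    rw [sum_const, card_range, nsmul_eq_mul, ← hη, a0, mul_assoc (J : ℝ)]
    gcongr
  have e5 : ((X : ℝ) / 2 ^ J + 1) * 2 / Real.log v ≤ ε / 5 * (X / Real.log X) + 4 := by
    have a1 : (J : ℝ) ≤ 2 ^ J := by exact_mod_cast Nat.lt_two_pow_self.le
    have a2 : 40 / (2 : ℝ) ^ J ≤ ε / 5 := by
      rw [div_lt_iff₀ hε] at hJ
      rw [div_le_div_iff₀ (by positivity) (by norm_num)]
      nlinarith
    have a3 : 2 / Real.log v ≤ 4 := by
      rw [div_le_iff₀ lv]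
      linarith [Real.log_le_log two_pos v1, Real.log_two_gt_d9]
    calc _ = 2 / 2 ^ J * (X / Real.log v) + 2 / Real.log v := by ring
      _ ≤ 2 / 2 ^ J * (20 * (X / Real.log X)) + 4 := by gcongr
      _ = 40 / 2 ^ J * (X / Real.log X) + 4 := by ring
      _ ≤ _ := by gcongr
  have e6 : ((X : ℝ) + 1) * 2 / (Λ * Real.log v) ≤ ε / 5 * (X / Real.log X) := by
    have a2 : 80 / (Λ : ℝ) ≤ ε / 5 := by
      have : 400 / ε < Λ := by linarith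
      rw [div_lt_iff₀ hε] at this
      rw [div_le_div_iff₀ (by positivity) (by norm_num)]
      nlinarith
    calc _ ≤ ((X : ℝ) + X) * 2 / (Λ * Real.log v) := by gcongr
      _ = 4 / Λ * (X / Real.log v) := by field_simp; ring
      _ ≤ 4 / Λ * (20 * (X / Real.log X)) := by gcongr
      _ = 80 / Λ * (X / Real.log X) := by ring
      _ ≤ _ := by gcongr
  have e7 : 13 * (v : ℝ) ^ 8 ≤ ε / 5 * (X / Real.log X) := by
    have a1 : (P : ℝ) ≤ v := by exact_mod_cast v3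
    have a2 : (v : ℝ) ^ 16 ≤ X := by exact_mod_cast p5
    have a3 := Real.log_le_sub_one_of_pos (by linarith : (0 : ℝ) < v)
    rw [div_le_iff₀' hε] at s3
    rw [← mul_div_assoc, le_div_iff₀ lX]
    calc _ ≤ 13 * (v : ℝ) ^ 8 * (20 * v) := by gcongr; linarith
      _ ≤ 2000 / 5 * (v : ℝ) ^ 9 := by nlinarith [pow_pos (by linarith : (0 : ℝ) < v) 9]
      _ ≤ ε * v / 5 * (v : ℝ) ^ 9 := by gcongr; nlinarith
      _ = ε / 5 * (v : ℝ) ^ 10 := by ring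
      _ ≤ ε / 5 * (v : ℝ) ^ 16 := by gcongr <;> linarith
      _ ≤ _ := by gcongr
  have e8 : (v : ℝ) ^ 4 ≤ v ^ 8 := pow_le_pow_right₀ (by linarith) (by norm_num)
  have e9 : (v : ℝ) ≤ v ^ 8 := le_self_pow₀ (by linarith) (by norm_num)
  linarith

open Classical in
/-- Row H: relative density one. -/
theorem density : Tendsto (fun X : ℕ =>
    (#{p ∈ Ioc 0 X | p.Prime ∧ p % 8 = 1 ∧ HadOn (Fin (4 * p))} : ℝ) /
      #{p ∈ Ioc 0 X | p.Prime ∧ p % 8 = 1}) atTop (nhds 1) := by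
  rw [Metric.tendsto_nhds]
  intro ε hε
  have tc := tendsto_natCast_atTop_atTop (R := ℝ)
  filter_upwards [few (ε / 320) (by positivity), H68.primes_ap, eventually_ge_atTop 2,
    (Real.tendsto_log_atTop.comp tc).eventually_ge_atTop 8] with X h1 h2 h3 h4
  have h5 := h2 8 1 (by norm_num) (by exact_mod_cast h4) (by norm_num)
  have lX : 0 < Real.log X := Real.log_pos (by exact_mod_cast h3)
  have X0 : (0 : ℝ) < X := by exact_mod_cast (by omega : 0 < X)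
  have a1 : (X : ℝ) / Real.log X ≤ 160 * #{p ∈ Ioc 0 X | p.Prime ∧ p % 8 = 1} := by
    have : #{p ∈ Ioc 0 X | X < 64 * p ∧ p.Prime ∧ p ≡ 1 [MOD 8]} ≤
        #{p ∈ Ioc 0 X | p.Prime ∧ p % 8 = 1} := card_le_card fun p hp =>
      mem_filter.2 ⟨(mem_filter.1 hp).1, (mem_filter.1 hp).2.2⟩
    have := h5.trans (Nat.cast_le.2 this)
    rw [div_le_iff₀ (by positivity)] at this
    rw [div_le_iff₀ lX]
    push_cast at this
    linarith
  have a2 : #{p ∈ Ioc 0 X | p.Prime ∧ p % 8 = 1} ≤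
      #{p ∈ Ioc 0 X | p.Prime ∧ p % 8 = 1 ∧ HadOn (Fin (4 * p))} +
        #{m ∈ Ioc 0 X | (8 * m + 1).Prime ∧ ¬ HadOn (Fin (8 * m))} := by
    refine le_trans (card_le_card (t := {p ∈ Ioc 0 X | p.Prime ∧ p % 8 = 1 ∧ HadOn (Fin (4 * p))} ∪
      {m ∈ Ioc 0 X | (8 * m + 1).Prime ∧ ¬ HadOn (Fin (8 * m))}.image fun m => 8 * m + 1)
      fun p hp => ?_) ((card_union_le _ _).trans (Nat.add_le_add_left card_image_le _))
    obtain ⟨b1, b2, b3⟩ := mem_filter.1 hp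
    obtain ⟨m, rfl⟩ : ∃ m, p = 8 * m + 1 := ⟨p / 8, by omega⟩
    by_cases c : HadOn (Fin (8 * m))
    · exact mem_union_left _ (mem_filter.2 ⟨b1, b2, b3, H7.miyamoto4 b2 (by omega) c⟩)
    · have := b2.one_lt
      have := (mem_Ioc.1 b1).2
      exact mem_union_right _ (mem_image.2 ⟨m, mem_filter.2 ⟨mem_Ioc.2 ⟨by omega, by omega⟩,
        b2, c⟩, rfl⟩)
  have a3 : #{p ∈ Ioc 0 X | p.Prime ∧ p % 8 = 1 ∧ HadOn (Fin (4 * p))} ≤
      #{p ∈ Ioc 0 X | p.Prime ∧ p % 8 = 1} := card_le_card fun p hp =>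
    mem_filter.2 ⟨(mem_filter.1 hp).1, (mem_filter.1 hp).2.1, (mem_filter.1 hp).2.2.1⟩
  have a4 := (Nat.cast_le (α := ℝ)).2 a2
  have a5 := (Nat.cast_le (α := ℝ)).2 a3
  rw [Nat.cast_add] at a4
  have a6 : 0 < (X : ℝ) / Real.log X := by positivity
  generalize (#{p ∈ Ioc 0 X | p.Prime ∧ p % 8 = 1} : ℝ) = N at *
  have N0 : 0 < N := by linarith
  rw [Real.dist_eq, abs_lt, lt_sub_iff_add_lt, lt_div_iff₀ N0, sub_lt_iff_lt_add, div_lt_iff₀ N0]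
  constructor <;> nlinarith [mul_pos hε N0, mul_le_mul_of_nonneg_left a1 hε.le]

end Pool.Agent.MP_d8b1b3_co.H98p
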