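import Mathlib
import Pool.Agent.MP_d8b1b3_co.H98p.Main

set_option autoImplicit false

namespace Pool.Agent.MP_d8b1b3_co.H98p.PrimeOrders

/-- Among the primes `p ≤ X` with `p ≡ 1 mod 8`, the proportion of those for which there is a
Hadamard matrix of order `4 * p` tends to one. -/
theorem result : Filter.Tendsto (fun X : ℕ =>
    ((Set.ncard {p : ℕ | p ≤ X ∧ Nat.Prime p ∧ p % 8 = 1 ∧
      ∃ H : Matrix (Fin (4 * p)) (Fin (4 * p)) ℤ,
        (∀ a b, H a b = 1 ∨ H a b = -1) ∧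
          H * Matrix.transpose H = ((4 * p : ℕ) : ℤ) •
            (1 : Matrix (Fin (4 * p)) (Fin (4 * p)) ℤ)} : ℕ) : ℝ) /
      ((Set.ncard {p : ℕ | p ≤ X ∧ Nat.Prime p ∧ p % 8 = 1} : ℕ) : ℝ))
    Filter.atTop (nhds 1) := by
  classical
  refine Pool.Agent.MP_d8b1b3_co.H98p.density.congr fun X => ?_
  rw [← Set.ncard_coe_finset, ← Set.ncard_coe_finset]
  refine congrArg₂ (fun a b : Set ℕ => (a.ncard : ℝ) / b.ncard) (Set.ext fun p => ?_)
    (Set.ext fun p => ?_)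
  · simp only [Finset.coe_filter, Finset.mem_Ioc, Set.mem_ofPred_eq,
      Pool.Agent.MP_d8b1b3_co.HadOn, Fintype.card_fin]
    exact ⟨fun a => ⟨a.1.2, a.2⟩, fun a => ⟨⟨a.2.1.pos, a.1⟩, a.2⟩⟩
  · simp only [Finset.coe_filter, Finset.mem_Ioc, Set.mem_ofPred_eq]
    exact ⟨fun a => ⟨a.1.2, a.2⟩, fun a => ⟨⟨a.2.1.pos, a.1⟩, a.2⟩⟩

end Pool.Agent.MP_d8b1b3_co.H98p.PrimeOrders
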